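import Pool.Agent.Helper83.TW.T5
import Pool.Agent.Helper83.TW.T6

set_option autoImplicit false

namespace Pool.Agent.Results.MP_f4d5ac_nt.LowerBound

/-- The number `N_f(B)` of squarefree integers `d` with `|d| < B` such that the twist
`d y² = f(x)` has a rational point with `y ≠ 0`. -/
noncomputable def N (f : Polynomial ℤ) (B : ℕ) : ℕ :=
  {d : ℤ | |d| < (B : ℤ) ∧ Squarefree d ∧
    ∃ x y : ℚ, y ≠ 0 ∧ (d : ℚ) * y ^ 2 = (f.map (Int.castRingHom ℚ)).eval x}.ncard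

/-- **Lower bounds of the right order for the number of squarefree twists with nontrivial points.**
Let `f` be a separable integer polynomial of degree `2 g + 1` or `2 g + 2` with `g ≥ 2`.
(1) If `f` has odd degree or is reducible over `ℚ`, then `N_f(B) ≥ c B^(1/(g+1))` for all large `B`.
(2) In all cases, for every `δ > 0` there is `c > 0` such that for all large `B`
`N_f(B) ≥ c B^(1/(g+1))` or `N_f(B^(1/(g+1)+δ)) ≥ B^(1/(g+1)-δ)`.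
(3) In all cases, for every `κ > 0` there is `c > 0` such that for all large `B` there is
`B' ∈ [B, B^(1+κ)]` with `N_f(B') ≥ c B'^(1/(g+1))`.
(4) In all cases, for every `κ > 0` there is `c > 0` such that for all large `B`
`N_f(B) ≥ c B^(1/(g+1))` or `N_f(B') ≥ B'^(1/(g+1))` for all `B' ∈ [B^(1/(g+1)+κ), B^(1-κ)]`.
(5) In all cases, if `N_f(B) ≤ B^(1-ε)` for some `ε > 0` and all large `B`, then
`N_f(B) ≥ c B^(1/(g+1))` for some `c > 0` and all large `B`. -/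
theorem result (f : Polynomial ℤ) (g : ℕ) (hg : 2 ≤ g)
    (hdeg : f.natDegree = 2 * g + 1 ∨ f.natDegree = 2 * g + 2)
    (hs : (f.map (Int.castRingHom ℚ)).Separable) :
    ((f.natDegree = 2 * g + 1 ∨ ¬ Irreducible (f.map (Int.castRingHom ℚ))) →
      ∃ c : ℝ, 0 < c ∧ ∃ B₀ : ℕ, ∀ B : ℕ, B₀ ≤ B →
        c * (B : ℝ) ^ ((1 : ℝ) / (g + 1)) ≤ (N f B : ℝ)) ∧
    (∀ δ : ℝ, 0 < δ → ∃ c : ℝ, 0 < c ∧ ∃ B₀ : ℕ, ∀ B : ℕ, B₀ ≤ B →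
      c * (B : ℝ) ^ ((1 : ℝ) / (g + 1)) ≤ (N f B : ℝ) ∨
      (B : ℝ) ^ ((1 : ℝ) / (g + 1) - δ) ≤ (N f ⌊(B : ℝ) ^ ((1 : ℝ) / (g + 1) + δ)⌋₊ : ℝ)) ∧
    (∀ κ : ℝ, 0 < κ → ∃ c : ℝ, 0 < c ∧ ∃ B₀ : ℕ, ∀ B : ℕ, B₀ ≤ B → ∃ B' : ℕ, B ≤ B' ∧
      (B' : ℝ) ≤ (B : ℝ) ^ (1 + κ) ∧ c * (B' : ℝ) ^ ((1 : ℝ) / (g + 1)) ≤ (N f B' : ℝ)) ∧
    (∀ κ : ℝ, 0 < κ → ∃ c : ℝ, 0 < c ∧ ∃ B₀ : ℕ, ∀ B : ℕ, B₀ ≤ B →
      c * (B : ℝ) ^ ((1 : ℝ) / (g + 1)) ≤ (N f B : ℝ) ∨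
      ∀ B' : ℕ, (B : ℝ) ^ ((1 : ℝ) / (g + 1) + κ) ≤ B' → (B' : ℝ) ≤ (B : ℝ) ^ (1 - κ) →
        (B' : ℝ) ^ ((1 : ℝ) / (g + 1)) ≤ (N f B' : ℝ)) ∧
    ((∃ ε : ℝ, 0 < ε ∧ ∃ B₁ : ℕ, ∀ B : ℕ, B₁ ≤ B → (N f B : ℝ) ≤ (B : ℝ) ^ (1 - ε)) →
      ∃ c : ℝ, 0 < c ∧ ∃ B₀ : ℕ, ∀ B : ℕ, B₀ ≤ B →
        c * (B : ℝ) ^ ((1 : ℝ) / (g + 1)) ≤ (N f B : ℝ)) := by
  have hN : ∀ B, N f B = Pool.Agent.Helper83.TW.Nf f B := fun _ => rfl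
  have hex : (1 : ℝ) / (g + 1) = Pool.Agent.Helper83.TW.ex f := by
    have : (f.natDegree - 1) / 2 = g := by omega
    rw [Pool.Agent.Helper83.TW.ex, this]
  have h5 : 5 ≤ f.natDegree := by omega
  simp only [hN, hex]
  have hD := Pool.Agent.Helper83.TW.dichotomy f h5 hs
  refine ⟨fun h => ?_, hD, Pool.Agent.Helper83.TW.windows f h5 hD,
    Pool.Agent.Helper83.TW.sparse f h5 hD,
    fun ⟨ε, hε, hU⟩ => Pool.Agent.Helper83.TW.of_upper f h5 hD ε hε hU⟩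
  apply Pool.Agent.Helper83.TW.lower_red f h5 hs
  rcases h with h | h
  · left
    exact ⟨g, h⟩
  · exact Or.inr h

end Pool.Agent.Results.MP_f4d5ac_nt.LowerBound
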